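import Mathlib
import Pool.Agent.V11191.HBDefs
import Pool.Agent.V11191.HB

open Matrix Complex
open scoped ComplexOrder

namespace Pool.Agent.Results.MP_4f0bc7_gt.NoHarmonicMetric

open Pool.Agent.V11191.HB

/-- There are holomorphic differentials `q_2 = (3/2) (dz)^2`, `q_3 = 2 (dz)^3` on `X = ℂ`, neither
of them zero, for which the rank three Higgs bundle of the Hitchin section has no harmonic
metric. -/
theorem result :
    ∃ q : ℕ → ℂ → ℂ, (∀ j, Differentiable ℂ (q j)) ∧ (∀ z, q 2 z = 3 / 2 ∧ q 3 z = 2) ∧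
      ¬ ∃ H : ℂ → Matrix (Fin 3) (Fin 3) ℂ, IsHarmonicMetric (hitchinField 3 q) H := by
  refine ⟨fun j _ => if j = 2 then 3 / 2 else 2, fun j => differentiable_const _,
    fun z => ⟨by simp, by simp⟩, ?_⟩
  rintro ⟨H, hH⟩
  set A : Matrix (Fin 3) (Fin 3) ℂ := !![0, 3 / 2, 2; 1, 0, 3 / 2; 0, 1, 0] with hA
  have hAz : ∀ z, hitchinField 3 (fun j _ => if j = 2 then 3 / 2 else 2) z = A := by
    intro z
    ext i j
    fin_cases i <;> fin_cases j <;> simp [hitchinField, hA]
  set B : Matrix (Fin 3) (Fin 3) ℂ := A + 1 with hB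
  have hdet : ∀ w, IsUnit (H w).det := fun w =>
    (Matrix.isUnit_iff_isUnit_det (H w)).1 (hH.posDef w).isUnit
  have hflat : ∀ z, mdzbar (fun w => (H w)⁻¹ * mdz H w) z =
      B * ((H z)⁻¹ * Bᴴ * H z) - ((H z)⁻¹ * Bᴴ * H z) * B := by
    intro z
    rw [hH.flat z, hAz z]
    have h1 : (H z)⁻¹ * Bᴴ * H z = (H z)⁻¹ * Aᴴ * H z + 1 := by
      rw [hB, Matrix.conjTranspose_add, Matrix.conjTranspose_one, Matrix.mul_add, Matrix.add_mul,
        Matrix.mul_one, Matrix.nonsing_inv_mul _ (hdet z)]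
    rw [h1, hB]
    simp only [Matrix.add_mul, Matrix.mul_add, Matrix.mul_one, Matrix.one_mul]
    abel
  have hBe : B = !![1, 3 / 2, 2; 1, 1, 3 / 2; 0, 1, 1] := by
    rw [hB, hA]
    ext i j
    fin_cases i <;> fin_cases j <;> simp
  refine no_metric (H := H) (B := B) (x := ![1, 2, -2]) (y := ![1 / 2, -1 / 2, -1 / 4])
    hH.smooth hH.posDef hflat ?_ ?_ ?_ ?_ ?_
  · rw [hBe]
    ext i
    fin_cases i <;> simp [Matrix.mulVec, dotProduct, Fin.sum_univ_three] <;> norm_num
  · rw [hBe]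
    ext i
    fin_cases i <;> simp [Matrix.mulVec, dotProduct, Fin.sum_univ_three] <;> norm_num
  · rw [hBe]
    ext i j
    fin_cases i <;> fin_cases j <;>
      simp [Matrix.vecMulVec, Matrix.mul_apply, Fin.sum_univ_three] <;> norm_num
  · intro h
    have := congrFun h 0
    simp at this
  · intro h
    have := congrFun h 0
    simp at this

end Pool.Agent.Results.MP_4f0bc7_gt.NoHarmonicMetric
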